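import Pool.Agent.Helper32_OMP.Stmts

/-!
# Module LEVEL: jets at a multiple point stratified by their order
-/

set_option autoImplicit false
set_option linter.unusedVariables false
set_option linter.unusedSectionVars false

namespace Pool.Agent.Helper32_OMP.H8

open PowerSeries Finset Pool.Agent.Helper6_Mono Pool.Agent.Helper32_OMP

variable {k : Type} [Field k] {σ ι : Type}

/-! ### series -/

/-- the part with indices between `p` and `q` -/
noncomputable def cut {S : Type} [CommRing S] (p q : ℕ) (U : S⟦X⟧) : S⟦X⟧ :=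
  PowerSeries.mk fun b => if p ≤ b ∧ b ≤ q then coeff b U else 0

theorem coeff_cut {S : Type} [CommRing S] (p q : ℕ) (U : S⟦X⟧) (b : ℕ) :
    coeff b (cut p q U) = if p ≤ b ∧ b ≤ q then coeff b U else 0 := by
  rw [cut, coeff_mk]

/-- division by `t ^ j` -/
noncomputable def dn {S : Type} [CommRing S] (j : ℕ) (U : S⟦X⟧) : S⟦X⟧ :=
  PowerSeries.mk fun b => coeff (b + j) U

theorem coeff_dn {S : Type} [CommRing S] (j : ℕ) (U : S⟦X⟧) (b : ℕ) :
    coeff b (dn j U) = coeff (b + j) U := by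
  rw [dn, coeff_mk]

section ev

variable {S : Type} [CommRing S] [Algebra k S]

theorem evt_rename (f : MvPolynomial σ k) (γ : σ → S⟦X⟧) :
    evt (MvPolynomial.rename some f) γ = MvPolynomial.aeval γ f := by
  rw [evt, MvPolynomial.aeval_rename]
  rfl

theorem evt_tpow (j : ℕ) (G : MvPolynomial (Option σ) k) (γ : σ → S⟦X⟧) :
    evt (tpow j G) γ
      = MvPolynomial.aeval (fun o : Option σ => o.elim (PowerSeries.X ^ j : S⟦X⟧) γ) G := by
  rw [evt, tpow, ← AlgHom.comp_apply, MvPolynomial.comp_aeval]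
  congr 2
  funext o
  cases o with
  | none => simp
  | some l => simp

theorem evt_mpt {f : ι → MvPolynomial σ k} (P : MPt f) (i : ι) (j : ℕ) (γ : σ → S⟦X⟧) :
    evt (MvPolynomial.rename some (f i))
        (fun l => C (algebraMap k S (P.p l)) + PowerSeries.X ^ j * γ l)
      = PowerSeries.X ^ (j * P.d i) * evt (tpow j (P.G i)) γ := by
  have h := congrArg (MvPolynomial.aeval
    (fun o : Option σ => o.elim (PowerSeries.X ^ j : S⟦X⟧) γ)) (P.eq i)
  rw [map_mul, map_pow, MvPolynomial.aeval_X, ← AlgHom.comp_apply, MvPolynomial.comp_aeval] at h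
  rw [evt_rename, evt_tpow]
  have h1 : (fun l => (MvPolynomial.aeval
      (fun o : Option σ => o.elim (PowerSeries.X ^ j : S⟦X⟧) γ))
        (MvPolynomial.C (P.p l) + MvPolynomial.X none * MvPolynomial.X (some l)))
      = fun l => C (algebraMap k S (P.p l)) + PowerSeries.X ^ j * γ l := by
    funext l
    rw [map_add, map_mul, MvPolynomial.aeval_X, MvPolynomial.aeval_X, MvPolynomial.algHom_C,
      PowerSeries.algebraMap_apply]
    rfl
  rw [h1] at h
  rw [h]
  show (PowerSeries.X ^ j : S⟦X⟧) ^ P.d i * _ = _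
  rw [← pow_mul]

variable [Fintype ι]

theorem fser_mpt {f : ι → MvPolynomial σ k} (P : MPt f) (a : ι → ℕ) (c : k) (j m : ℕ)
    (hm : m ≠ 0) (h : j * P.ds a ≤ m) (γ : σ → S⟦X⟧) :
    (lp0 f a c m hm).fser (fun l => C (algebraMap k S (P.p l)) + PowerSeries.X ^ j * γ l)
      = PowerSeries.X ^ (j * P.ds a) * (lpP P a c j m hm h).fser γ := by
  show C (algebraMap k S c) * ∏ i, evt (MvPolynomial.rename some (f i))
      (fun l => C (algebraMap k S (P.p l)) + PowerSeries.X ^ j * γ l) ^ a i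
    = PowerSeries.X ^ (j * P.ds a) * (C (algebraMap k S c) * ∏ i, evt (tpow j (P.G i)) γ ^ a i)
  rw [Finset.prod_congr rfl fun i _ => by rw [evt_mpt P i j γ, mul_pow, ← pow_mul],
    Finset.prod_mul_distrib, Finset.prod_pow_eq_pow_sum]
  have h1 : ∑ i, j * P.d i * a i = j * P.ds a := by
    rw [MPt.ds, Finset.mul_sum]
    exact Finset.sum_congr rfl fun i _ => by ring
  rw [h1]
  ring

theorem fser_mpt' {f : ι → MvPolynomial σ k} (P : MPt f) (a : ι → ℕ) (c : k) (j m : ℕ)
    (hm : m ≠ 0) (γ : σ → S⟦X⟧) : ∃ U : S⟦X⟧,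
    (lp0 f a c m hm).fser (fun l => C (algebraMap k S (P.p l)) + PowerSeries.X ^ j * γ l)
      = PowerSeries.X ^ (j * P.ds a) * U := by
  refine ⟨C (algebraMap k S c) * ∏ i, evt (tpow j (P.G i)) γ ^ a i, ?_⟩
  show C (algebraMap k S c) * ∏ i, evt (MvPolynomial.rename some (f i))
      (fun l => C (algebraMap k S (P.p l)) + PowerSeries.X ^ j * γ l) ^ a i = _
  rw [Finset.prod_congr rfl fun i _ => by rw [evt_mpt P i j γ, mul_pow, ← pow_mul],
    Finset.prod_mul_distrib, Finset.prod_pow_eq_pow_sum]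
  have h1 : ∑ i, j * P.d i * a i = j * P.ds a := by
    rw [MPt.ds, Finset.mul_sum]
    exact Finset.sum_congr rfl fun i _ => by ring
  rw [h1]
  ring

/-- congruence modulo `t ^ (N + 1)` -/
theorem aeval_congr (N : ℕ) {T : Type} (F : MvPolynomial T k) (γ γ' : T → S⟦X⟧)
    (h : ∀ l, ∀ b ≤ N, coeff b (γ l) = coeff b (γ' l)) :
    ∀ b ≤ N, coeff b (MvPolynomial.aeval γ F) = coeff b (MvPolynomial.aeval γ' F) := by
  induction F using MvPolynomial.induction_on with
  | C x => intro b _; rw [MvPolynomial.algHom_C, MvPolynomial.algHom_C]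
  | add p q hp hq => intro b hb; rw [map_add, map_add, map_add, map_add, hp b hb, hq b hb]
  | mul_X p i hp =>
    intro b hb
    rw [map_mul (MvPolynomial.aeval γ), map_mul (MvPolynomial.aeval γ'), MvPolynomial.aeval_X,
      MvPolynomial.aeval_X, coeff_mul, coeff_mul]
    refine Finset.sum_congr rfl fun x hx => ?_
    have hx' := Finset.HasAntidiagonal.mem_antidiagonal.1 hx
    rw [hp x.1 (by omega), h i x.2 (by omega)]

theorem evt_congr (N : ℕ) (F : MvPolynomial (Option σ) k) (γ γ' : σ → S⟦X⟧)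
    (h : ∀ l, ∀ b ≤ N, coeff b (γ l) = coeff b (γ' l)) :
    ∀ b ≤ N, coeff b (evt F γ) = coeff b (evt F γ') := by
  refine aeval_congr N F _ _ fun o b hb => ?_
  cases o with
  | none => rfl
  | some l => exact h l b hb

theorem mul_congr {N : ℕ} {U U' V V' : S⟦X⟧} (h1 : ∀ b ≤ N, coeff b U = coeff b U')
    (h2 : ∀ b ≤ N, coeff b V = coeff b V') : ∀ b ≤ N, coeff b (U * V) = coeff b (U' * V') := by
  intro b hb
  rw [coeff_mul, coeff_mul]
  refine Finset.sum_congr rfl fun x hx => ?_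
  have hx' := Finset.HasAntidiagonal.mem_antidiagonal.1 hx
  rw [h1 x.1 (by omega), h2 x.2 (by omega)]

theorem pow_congr' {N : ℕ} {U U' : S⟦X⟧} (h1 : ∀ b ≤ N, coeff b U = coeff b U') (e : ℕ) :
    ∀ b ≤ N, coeff b (U ^ e) = coeff b (U' ^ e) := by
  induction e with
  | zero => intro b _; rw [pow_zero, pow_zero]
  | succ e ih => rw [pow_succ, pow_succ]; exact mul_congr ih h1

theorem prod_congr' {N : ℕ} {T : Type} (s : Finset T) {U U' : T → S⟦X⟧}
    (h1 : ∀ i ∈ s, ∀ b ≤ N, coeff b (U i) = coeff b (U' i)) :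
    ∀ b ≤ N, coeff b (∏ i ∈ s, U i) = coeff b (∏ i ∈ s, U' i) := by
  classical
  induction s using Finset.induction_on with
  | empty => intro b _; rw [Finset.prod_empty, Finset.prod_empty]
  | insert x s hx ih =>
    rw [Finset.prod_insert hx, Finset.prod_insert hx]
    exact mul_congr (h1 x (Finset.mem_insert_self _ _))
      (ih fun i hi => h1 i (Finset.mem_insert_of_mem hi))

theorem fser_congr (D : LP k σ ι) (N : ℕ) (γ γ' : σ → S⟦X⟧)
    (h : ∀ l, ∀ b ≤ N, coeff b (γ l) = coeff b (γ' l)) :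
    ∀ b ≤ N, coeff b (D.fser γ) = coeff b (D.fser γ') :=
  mul_congr (fun b _ => rfl) (prod_congr' _ fun i _ => pow_congr' (evt_congr N _ _ _ h) _)

end ev

/-! ### the strata -/

/-- indices between `j` and `m` -/
def Djm (σ : Type) (j m : ℕ) : Set (σ × ℕ) := {p | j ≤ p.2 ∧ p.2 ≤ m}

theorem Djm_finite [Finite σ] (j m : ℕ) : (Djm σ j m).Finite := by
  refine Set.Finite.subset (Set.Finite.prod (Set.finite_univ (α := σ)) (Set.finite_Iic m)) ?_
  rintro ⟨l, b⟩ h
  exact ⟨Set.mem_univ _, h.2⟩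

theorem Djm_ncard [Fintype σ] (j m : ℕ) : (Djm σ j m).ncard = Fintype.card σ * (m + 1 - j) := by
  classical
  have h : Djm σ j m = ((Finset.univ ×ˢ Finset.Icc j m : Finset (σ × ℕ)) : Set (σ × ℕ)) := by
    ext ⟨l, b⟩
    simp [Djm]
  rw [h, Set.ncard_coe_finset, Finset.card_product, Finset.card_univ, Nat.card_Icc]

section strata

variable [Fintype σ] [Fintype ι]

/-- the equations are stable -/
theorem EE_tw (f : ι → MvPolynomial σ k) (a : ι → ℕ) (c : k) (p : σ → k) (m : ℕ) (hm : m ≠ 0)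
    {S S' : Type} [CommRing S] [Algebra k S] [CommRing S'] [Algebra k S'] (φ : S →ₐ[k] S')
    (ch : Chr QZ S') (δ : σ → S⟦X⟧) (b : ℕ) :
    coeff b ((lp0 f a c m hm).fser fun l => C (algebraMap k S' (p l)) +
      C (chr ch (0 : QZ)) * twS (om m) φ ch (δ l)) = chr ch (b • om m) *
        φ (coeff b ((lp0 f a c m hm).fser fun l => C (algebraMap k S (p l)) + δ l)) := by
  have h1 : (fun l => C (algebraMap k S' (p l)) + C (chr ch (0 : QZ)) * twS (om m) φ ch (δ l))
      = fun l => C (chr ch (lp0 f a c m hm).θ) * twS (lp0 f a c m hm).ω φ ch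
        (C (algebraMap k S (p l)) + δ l) := by
    funext l
    show _ = C (chr ch (0 : QZ)) * twS (om m) φ ch (C (algebraMap k S (p l)) + δ l)
    rw [map_add, mul_add, twS_C, AlgHom.commutes, chr_zero, map_one, one_mul, one_mul]
  have h2 : ∑ i, (lp0 f a c m hm).a i • (lp0 f a c m hm).ϑ i = 0 :=
    Finset.sum_eq_zero fun i _ => smul_zero _
  rw [h1, (lp0 f a c m hm).fser_tw, h2, chr_zero, map_one, one_mul, coeff_twS]

theorem EE_tw' (f : ι → MvPolynomial σ k) (a : ι → ℕ) (c : k) (p : σ → k) (m : ℕ) (hm : m ≠ 0)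
    {S S' : Type} [CommRing S] [Algebra k S] [CommRing S'] [Algebra k S'] (φ : S →ₐ[k] S')
    (ch : Chr QZ S') (δ : σ → S⟦X⟧)
    (h : ∀ b ≤ m, coeff b ((lp0 f a c m hm).fser fun l => C (algebraMap k S (p l)) + δ l)
      = if b = m then 1 else 0) (b : ℕ) (hb : b ≤ m) :
    coeff b ((lp0 f a c m hm).fser fun l => C (algebraMap k S' (p l)) +
      C (chr ch (0 : QZ)) * twS (om m) φ ch (δ l)) = if b = m then 1 else 0 := by
  rw [EE_tw, h b hb]
  split_ifs with hbm
  · rw [hbm, om_smul hm, chr_zero, map_one, mul_one]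
  · rw [map_zero, mul_zero]

/-- jets `p + δ`, `δ` divisible by `t ^ j` -/
@[reducible] noncomputable def EE (f : ι → MvPolynomial σ k) (a : ι → ℕ) (c : k) (p : σ → k)
    (m : ℕ) (hm : m ≠ 0) (j : ℕ) : Over k QZ σ (fun _ => (0 : QZ)) where
  F := (serGF k (Djm σ j m) (fun _ => (0 : QZ)) (om m)).sub
    (fun S _ _ δ => ∀ b ≤ m, coeff b ((lp0 f a c m hm).fser fun l =>
      C (algebraMap k S (p l)) + δ.1 l) = if b = m then 1 else 0)
    (fun φ ch δ h => EE_tw' f a c p m hm φ ch δ.1 h)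
  pt l := ⟨fun {S} _ _ _ => algebraMap k S (p l), fun φ c _ => by
    rw [chr_zero, one_mul, AlgHom.commutes]⟩

variable (f : ι → MvPolynomial σ k) (a : ι → ℕ) (c : k) (m : ℕ) (hm : m ≠ 0)

theorem FT.EE (p : σ → k) (j : ℕ) : FT (EE f a c p m hm j).F := by
  refine FT.closed (FT.ser (Djm_finite j m) _ _) (fun φ ch δ h => EE_tw' f a c p m hm φ ch δ.1 h)
    (A := Fin (m + 1))
    (w := fun b => (b : ℕ) • om m) (fun b => ⟨fun {S} _ _ δ => coeff (b : ℕ)
      ((lp0 f a c m hm).fser fun l => C (algebraMap k S (p l)) + δ.1 l)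
        - if (b : ℕ) = m then 1 else 0, fun {S S'} _ _ _ _ φ ch δ => ?_⟩) ?_
  · show coeff (b : ℕ) ((lp0 f a c m hm).fser fun l => C (algebraMap k S' (p l)) +
      C (chr ch (0 : QZ)) * twS (om m) φ ch (δ.1 l)) - (if (b : ℕ) = m then 1 else 0) = _
    rw [EE_tw, map_sub, mul_sub]
    congr 1
    split_ifs with hbm
    · rw [hbm, om_smul hm, chr_zero, map_one, mul_one]
    · rw [map_zero, mul_zero]
  · intro S _ _ δ
    constructor
    · intro h b
      exact sub_eq_zero.2 (h b (by omega))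
    · intro h b hb
      exact sub_eq_zero.1 (h ⟨b, by omega⟩)

/-- the coefficient of index `j` -/
@[reducible] noncomputable def cf (p : σ → k) (j : ℕ) (l : σ) :
    NF (EE f a c p m hm j).F (j • om m) :=
  ⟨fun δ => coeff j (δ.1.1 l), fun {S S'} _ _ _ _ φ ch δ => by
    show coeff j (C (chr ch (0 : QZ)) * twS (om m) φ ch (δ.1.1 l)) = _
    rw [coeff_C_mul, coeff_twS, chr_zero, one_mul]⟩

theorem app_iso (p : σ → k) :
    OIso ((lp0 f a c m hm).K.app (ptP QZ p)) (EE f a c p m hm 1) := by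
  refine OIso.mk' (fun S _ _ x => ⟨⟨x.1.2.1, x.1.2.2⟩, fun b hb => ?_⟩)
    (fun S _ _ δ => ⟨((), ⟨δ.1.1, δ.1.2⟩), fun b => ?_⟩)
    (fun S _ _ p => rfl) (fun S _ _ p => rfl) (fun φ c p => rfl) (fun S _ _ x b => ?_)
  · exact sub_eq_zero.1 (x.2 ⟨b, Nat.lt_succ_of_le hb⟩)
  · exact sub_eq_zero.2 (δ.2 b (Nat.le_of_lt_succ b.2))
  · show algebraMap k S (p b) = MvPolynomial.aeval (fun l => algebraMap k S (p l))
      (MvPolynomial.X b : MvPolynomial σ k)
    rw [MvPolynomial.aeval_X]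

theorem aeval_const {S : Type} [CommRing S] [Algebra k S] (F : MvPolynomial σ k) (x : σ → S) :
    MvPolynomial.aeval (fun l => (C (x l) : S⟦X⟧)) F = C (MvPolynomial.aeval x F) := by
  induction F using MvPolynomial.induction_on with
  | C y => rw [MvPolynomial.algHom_C, MvPolynomial.algHom_C, PowerSeries.algebraMap_apply]
  | add p q hp hq => rw [map_add, map_add, hp, hq, map_add]
  | mul_X p i hp =>
    rw [map_mul (MvPolynomial.aeval fun l => (C (x l) : S⟦X⟧)), MvPolynomial.aeval_X, hp,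
      map_mul (MvPolynomial.aeval x), MvPolynomial.aeval_X, map_mul]

theorem last_empty {R : Type 1} [CommRing R] {L : Rˣ} (χ : SInv k (fun _ : σ => (0 : QZ)) L)
    (p : σ → k) : χ.χ (EE f a c p m hm (m + 1)) = 0 := by
  refine χ.empty (FT.EE f a c m hm p (m + 1)) fun S _ _ δ => ?_
  have h0 : δ.1.1 = fun l => (0 : S⟦X⟧) := by
    funext l
    ext b
    rw [map_zero]
    refine δ.1.2 l b fun hb => ?_
    have h1 : m + 1 ≤ b := hb.1
    have h2 : b ≤ m := hb.2
    omega
  have h1 := δ.2 m le_rfl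
  rw [if_pos rfl, h0] at h1
  have h2 : (fun l => C (algebraMap k S (p l)) + (0 : S⟦X⟧))
      = fun l => C (algebraMap k S (p l)) := by
    funext l
    rw [add_zero]
  have h3 : (lp0 f a c m hm).fser (fun l => C (algebraMap k S (p l)) + (0 : S⟦X⟧))
      = C (algebraMap k S c * ∏ i, MvPolynomial.aeval (fun l => algebraMap k S (p l)) (f i) ^ a i) := by
    rw [h2]
    show C (algebraMap k S c) * ∏ i, evt (MvPolynomial.rename some (f i))
      (fun l => C (algebraMap k S (p l))) ^ a i = _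
    rw [Finset.prod_congr rfl fun i _ => by rw [evt_rename, aeval_const, ← map_pow], ← map_prod,
      ← map_mul]
  rw [h3, coeff_C, if_neg hm] at h1
  exact h1.symm

theorem zero_iso (p : σ → k) (j : ℕ) :
    OIso ((EE f a c p m hm j).tor (cf f a c m hm p j) univ ∅) (EE f a c p m hm (j + 1)) := by
  classical
  refine OIso.mk' (fun S _ _ x => ⟨⟨x.1.1.1, fun l b hb => ?_⟩, x.1.2⟩)
    (fun S _ _ δ => ⟨⟨⟨δ.1.1, fun l b hb => ?_⟩, δ.2⟩, fun l _ => ⟨fun h => ?_, fun _ => ?_⟩⟩)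
    (fun S _ _ p => rfl) (fun S _ _ p => rfl) (fun φ c p => rfl) (fun S _ _ x b => rfl)
  · by_cases h : b = j
    · rw [h]
      exact (x.2 l (Finset.mem_univ _)).2 (Finset.notMem_empty _)
    · refine x.1.1.2 l b fun hb' => hb ?_
      have h1 : j ≤ b := hb'.1
      have h2 : b ≤ m := hb'.2
      exact ⟨show j + 1 ≤ b by omega, h2⟩
  · refine δ.1.2 l b fun hb' => hb ?_
    have h1 : j + 1 ≤ b := hb'.1
    have h2 : b ≤ m := hb'.2
    exact ⟨show j ≤ b by omega, h2⟩
  · exact absurd h (Finset.notMem_empty _)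
  · refine δ.1.2 l j fun hb' => ?_
    have h1 : j + 1 ≤ j := hb'.1
    omega

theorem dn_spec {S : Type} [CommRing S] {j : ℕ} {U : S⟦X⟧} (hU : ∀ b, b < j → coeff b U = 0) :
    PowerSeries.X ^ j * dn j U = U := by
  ext b
  rw [coeff_X_pow_mul']
  split_ifs with h
  · rw [coeff_dn, Nat.sub_add_cancel h]
  · exact (hU b (by omega)).symm

theorem dn_mul {S : Type} [CommRing S] (j : ℕ) (V : S⟦X⟧) : dn j (PowerSeries.X ^ j * V) = V := by
  ext b
  rw [coeff_dn, coeff_X_pow_mul', if_pos (by omega), Nat.add_sub_cancel]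

theorem low_Djm {S : Type} [CommRing S] {j m : ℕ} {γ : σ → S⟦X⟧}
    (h : ∀ l b, (l, b) ∉ Djm σ j m → coeff b (γ l) = 0) (l : σ) (b : ℕ) (hb : b < j) :
    coeff b (γ l) = 0 := by
  refine h l b fun h' => ?_
  have h1 : j ≤ b := h'.1
  omega

theorem high_empty {R : Type 1} [CommRing R] {L : Rˣ} (χ : SInv k (fun _ : σ => (0 : QZ)) L)
    (P : MPt f) (j : ℕ) (hj : m < j * P.ds a) (V : Finset σ) :
    χ.χ ((EE f a c P.p m hm j).tor (cf f a c m hm P.p j) univ V) = 0 := by
  classical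
  refine χ.empty (FT.tor (FT.EE f a c m hm P.p j) _ _ _) fun S _ _ x => ?_
  have h1 := x.1.2 m le_rfl
  rw [if_pos rfl] at h1
  have h2 : (fun l => C (algebraMap k S (P.p l)) + x.1.1.1 l)
      = fun l => C (algebraMap k S (P.p l)) + PowerSeries.X ^ j * dn j (x.1.1.1 l) := by
    funext l
    rw [dn_spec fun b hb => low_Djm x.1.1.2 l b hb]
  obtain ⟨U, hU⟩ := fser_mpt' P a c j m hm (fun l => dn j (x.1.1.1 l))
  rw [h2, hU, coeff_X_pow_mul', if_neg (by omega)] at h1
  exact h1.symm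

theorem eq_iff (P : MPt f) (j : ℕ) (h : j * P.ds a ≤ m) {S : Type} [CommRing S] [Algebra k S]
    (γ : σ → S⟦X⟧) :
    (∀ b ≤ m, coeff b ((lp0 f a c m hm).fser fun l =>
      C (algebraMap k S (P.p l)) + PowerSeries.X ^ j * γ l) = if b = m then 1 else 0)
    ↔ ∀ b ≤ m - j * P.ds a, coeff b ((lpP P a c j m hm h).fser γ)
      = if b = m - j * P.ds a then 1 else 0 := by
  rw [fser_mpt P a c j m hm h γ]
  constructor
  · intro H b hb
    have h1 := H (b + j * P.ds a) (by omega)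
    rw [coeff_X_pow_mul', if_pos (by omega), Nat.add_sub_cancel] at h1
    rw [h1]
    by_cases hbm : b = m - j * P.ds a
    · rw [if_pos hbm, if_pos (by omega)]
    · rw [if_neg hbm, if_neg (by omega)]
  · intro H b hb
    rw [coeff_X_pow_mul']
    by_cases hbj : j * P.ds a ≤ b
    · rw [if_pos hbj, H (b - j * P.ds a) (by omega)]
      by_cases hbm : b = m
      · rw [if_pos hbm, if_pos (by omega)]
      · rw [if_neg hbm, if_neg (by omega)]
    · rw [if_neg hbj, if_neg (by omega)]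

/-- the free coefficients -/
def Dfr (σ : Type) (p q : ℕ) : Set (σ × ℕ) := {x | p + 1 ≤ x.2 ∧ x.2 ≤ q}

theorem Dfr_eq (p q : ℕ) : Dfr σ p q = Djm σ (p + 1) q := rfl

theorem recomp {S : Type} [CommRing S] {j M N : ℕ} (hMN : M ≤ N) {U : S⟦X⟧}
    (h1 : ∀ b, b < j → coeff b U = 0) (h2 : ∀ b, j + N < b → coeff b U = 0) :
    PowerSeries.X ^ j * (C (coeff j U) + cut 1 M (dn j U) + cut (M + 1) N (dn j U)) = U := by
  have h3 : C (coeff j U) + cut 1 M (dn j U) + cut (M + 1) N (dn j U) = dn j U := by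
    ext b
    rw [map_add, map_add, coeff_C, coeff_cut, coeff_cut, coeff_dn]
    by_cases hb : b = 0
    · rw [if_pos hb, if_neg (by omega), if_neg (by omega), hb, zero_add, add_zero, add_zero]
    · rw [if_neg hb, zero_add]
      by_cases hb1 : b ≤ M
      · rw [if_pos (by omega), if_neg (by omega), add_zero]
      · rw [if_neg (by omega), zero_add]
        by_cases hb2 : b ≤ N
        · rw [if_pos (by omega)]
        · rw [if_neg (by omega), h2 (b + j) (by omega)]
  rw [h3, dn_spec h1]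

theorem cut1 {S : Type} [CommRing S] {M N : ℕ} (y : S) {V W : S⟦X⟧}
    (hV : ∀ b, ¬ (1 ≤ b ∧ b ≤ M) → coeff b V = 0)
    (hW : ∀ b, ¬ (M + 1 ≤ b ∧ b ≤ N) → coeff b W = 0) :
    cut 1 M (C y + V + W) = V := by
  ext b
  rw [coeff_cut, map_add, map_add, coeff_C]
  split_ifs with h1 h2
  · omega
  · rw [hW b (by omega), zero_add, add_zero]
  · exact (hV b h1).symm

theorem cut2 {S : Type} [CommRing S] {M N : ℕ} (y : S) {V W : S⟦X⟧}
    (hV : ∀ b, ¬ (1 ≤ b ∧ b ≤ M) → coeff b V = 0)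
    (hW : ∀ b, ¬ (M + 1 ≤ b ∧ b ≤ N) → coeff b W = 0) :
    cut (M + 1) N (C y + V + W) = W := by
  ext b
  rw [coeff_cut, map_add, map_add, coeff_C]
  split_ifs with h1 h2
  · omega
  · rw [hV b (by omega), zero_add, zero_add]
  · exact (hW b h1).symm

theorem cut0 {S : Type} [CommRing S] {M N : ℕ} (y : S) {V W : S⟦X⟧}
    (hV : ∀ b, ¬ (1 ≤ b ∧ b ≤ M) → coeff b V = 0)
    (hW : ∀ b, ¬ (M + 1 ≤ b ∧ b ≤ N) → coeff b W = 0) (j : ℕ) :
    coeff j (PowerSeries.X ^ j * (C y + V + W)) = y := by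
  rw [coeff_X_pow_mul', if_pos le_rfl, Nat.sub_self, map_add, map_add, coeff_C, if_pos rfl,
    hV 0 (by omega), hW 0 (by omega), add_zero, add_zero]

theorem cut_tw {S S' : Type} [CommRing S] [Algebra k S] [CommRing S'] [Algebra k S']
    (φ : S →ₐ[k] S') (ch : Chr QZ S') (ω : QZ) (p q j : ℕ) (U : S⟦X⟧) :
    cut p q (dn j (C (chr ch (0 : QZ)) * twS ω φ ch U))
      = C (chr ch (j • ω)) * twS ω φ ch (cut p q (dn j U)) := by
  ext b
  rw [coeff_C_mul, coeff_twS, coeff_cut, coeff_cut, coeff_dn, coeff_dn, coeff_C_mul, coeff_twS]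
  split_ifs with h
  · rw [chr_zero, one_mul, add_smul, chr_add]
    ring
  · rw [map_zero, mul_zero, mul_zero]

theorem level_iso (P : MPt f) (hd : 0 < P.ds a) (j : ℕ) (hj : 1 ≤ j) (h : j * P.ds a ≤ m)
    (V : Finset σ) :
    OIso ((EE f a c P.p m hm j).tor (cf f a c m hm P.p j) univ V)
      (((lpP P a c j m hm h).K.app
        (polZ (affY k σ (j • om m)) MvPolynomial.X (X_hom (j • om m)) V)).times
        (serGF k (Dfr σ (m - j * P.ds a) (m - j)) (fun _ => j • om m) (om m))) := by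
  have hMN : m - j * P.ds a ≤ m - j := by
    have : j * 1 ≤ j * P.ds a := Nat.mul_le_mul_left j hd
    omega
  have hjm : j ≤ m := by
    have : j * 1 ≤ j * P.ds a := Nat.mul_le_mul_left j hd
    omega
  refine OIso.mk' (fun S _ _ x => (⟨(⟨fun l => coeff j (x.1.1.1 l), fun l _ => ?_⟩,
      ⟨fun l => cut 1 (m - j * P.ds a) (dn j (x.1.1.1 l)), fun l b hb => ?_⟩), fun b => ?_⟩,
      ⟨fun l => cut (m - j * P.ds a + 1) (m - j) (dn j (x.1.1.1 l)), fun l b hb => ?_⟩))
    (fun S _ _ q => ⟨⟨⟨fun l => PowerSeries.X ^ j * (C (q.1.1.1.1 l) + q.1.1.2.1 l + q.2.1 l),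
      fun l b hb => ?_⟩, ?_⟩, fun l _ => ?_⟩)
    (fun S _ _ x => ?_) (fun S _ _ q => ?_) (fun φ ch x => ?_) (fun S _ _ x b => ?_)
  · -- the strata of the leading coefficient
    have h1 := x.2 l (Finset.mem_univ _)
    show (l ∈ V → IsUnit (MvPolynomial.aeval (fun l => coeff j (x.1.1.1 l))
      (MvPolynomial.X l : MvPolynomial σ k))) ∧ (l ∉ V → MvPolynomial.aeval
        (fun l => coeff j (x.1.1.1 l)) (MvPolynomial.X l : MvPolynomial σ k) = 0)
    rw [MvPolynomial.aeval_X]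
    exact h1
  · have hb' : ¬ (1 ≤ b ∧ b ≤ m - j * P.ds a) := hb
    rw [coeff_cut, if_neg hb']
  · -- the equations
    have h1 : (fun l => C (algebraMap k S (P.p l)) + x.1.1.1 l)
        = fun l => C (algebraMap k S (P.p l)) + PowerSeries.X ^ j * dn j (x.1.1.1 l) := by
      funext l
      rw [dn_spec fun b hb => low_Djm x.1.1.2 l b hb]
    have h2 : ∀ b ≤ m, coeff b ((lp0 f a c m hm).fser fun l =>
        C (algebraMap k S (P.p l)) + x.1.1.1 l) = if b = m then 1 else 0 := x.1.2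
    rw [h1, eq_iff f a c m hm P j h fun l => dn j (x.1.1.1 l)] at h2
    refine sub_eq_zero.2 ?_
    rw [← h2 b (Nat.le_of_lt_succ b.2)]
    refine fser_congr _ (m - j * P.ds a) _ _ (fun l b hb => ?_) b (Nat.le_of_lt_succ b.2)
    show coeff b (C (coeff j (x.1.1.1 l)) + cut 1 (m - j * P.ds a) (dn j (x.1.1.1 l)))
      = coeff b (dn j (x.1.1.1 l))
    rw [map_add, coeff_C, coeff_cut, coeff_dn]
    by_cases hb0 : b = 0
    · rw [if_pos hb0, if_neg (by omega), hb0, zero_add, add_zero]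
    · rw [if_neg hb0, if_pos (by omega), zero_add]
  · have hb' : ¬ (m - j * P.ds a + 1 ≤ b ∧ b ≤ m - j) := hb
    rw [coeff_cut, if_neg hb']
  · -- support
    have hb' : ¬ (j ≤ b ∧ b ≤ m) := hb
    rw [coeff_X_pow_mul']
    split_ifs with hjb
    · rw [map_add, map_add, coeff_C, if_neg (by omega), zero_add,
        q.1.1.2.2 l (b - j) (fun h' => ?_), q.2.2 l (b - j) (fun h' => ?_), add_zero]
      · have h2 : m - j * P.ds a + 1 ≤ b - j := h'.1
        have h3 : b - j ≤ m - j := h'.2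
        omega
      · have h2 : 1 ≤ b - j := h'.1
        have h3 : b - j ≤ m - j * P.ds a := h'.2
        omega
    · rfl
  · -- the equations
    show ∀ b ≤ m, coeff b ((lp0 f a c m hm).fser fun l => C (algebraMap k S (P.p l)) +
      PowerSeries.X ^ j * (C (q.1.1.1.1 l) + q.1.1.2.1 l + q.2.1 l)) = if b = m then 1 else 0
    rw [eq_iff f a c m hm P j h fun l => C (q.1.1.1.1 l) + q.1.1.2.1 l + q.2.1 l]
    intro b hb
    have h1 := sub_eq_zero.1 (q.1.2 ⟨b, Nat.lt_succ_of_le hb⟩)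
    rw [← h1]
    refine fser_congr _ (m - j * P.ds a) _ _ (fun l b hb => ?_) b hb
    show coeff b (C (q.1.1.1.1 l) + q.1.1.2.1 l + q.2.1 l) = coeff b (C (q.1.1.1.1 l) + q.1.1.2.1 l)
    rw [map_add _ (C (q.1.1.1.1 l) + q.1.1.2.1 l) (q.2.1 l), q.2.2 l b (fun h' => ?_), add_zero]
    have h2 : m - j * P.ds a + 1 ≤ b := h'.1
    omega
  · -- the strata
    have h1 := q.1.1.1.2 l (Finset.mem_univ _)
    change (l ∈ V → IsUnit (MvPolynomial.aeval (fun l => q.1.1.1.1 l)
      (MvPolynomial.X l : MvPolynomial σ k))) ∧ (l ∉ V → MvPolynomial.aeval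
        (fun l => q.1.1.1.1 l) (MvPolynomial.X l : MvPolynomial σ k) = 0) at h1
    rw [MvPolynomial.aeval_X] at h1
    show (l ∈ V → IsUnit (coeff j (PowerSeries.X ^ j * (C (q.1.1.1.1 l) + q.1.1.2.1 l + q.2.1 l))))
      ∧ (l ∉ V → coeff j (PowerSeries.X ^ j * (C (q.1.1.1.1 l) + q.1.1.2.1 l + q.2.1 l)) = 0)
    rw [cut0 (M := m - j * P.ds a) (N := m - j) _ (fun b hb => q.1.1.2.2 l b hb)
      (fun b hb => q.2.2 l b hb)]
    exact h1
  · -- left inverse
    refine Subtype.ext (Subtype.ext (Subtype.ext (funext fun l => ?_)))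
    exact recomp hMN (fun b hb => low_Djm x.1.1.2 l b hb) fun b hb =>
      x.1.1.2 l b fun h' => by
        have h2 : b ≤ m := h'.2
        omega
  · -- right inverse
    refine Prod.ext (Subtype.ext (Prod.ext (Subtype.ext (funext fun l => ?_))
      (Subtype.ext (funext fun l => ?_)))) (Subtype.ext (funext fun l => ?_))
    · exact cut0 (M := m - j * P.ds a) (N := m - j) _ (fun b hb => q.1.1.2.2 l b hb)
        (fun b hb => q.2.2 l b hb) j
    · show cut 1 (m - j * P.ds a) (dn j (PowerSeries.X ^ j *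
        (C (q.1.1.1.1 l) + q.1.1.2.1 l + q.2.1 l))) = q.1.1.2.1 l
      rw [dn_mul]
      exact cut1 (N := m - j) _ (fun b hb => q.1.1.2.2 l b hb) (fun b hb => q.2.2 l b hb)
    · show cut (m - j * P.ds a + 1) (m - j) (dn j (PowerSeries.X ^ j *
        (C (q.1.1.1.1 l) + q.1.1.2.1 l + q.2.1 l))) = q.2.1 l
      rw [dn_mul]
      exact cut2 _ (fun b hb => q.1.1.2.2 l b hb) (fun b hb => q.2.2 l b hb)
  · -- twists
    refine Prod.ext (Subtype.ext (Prod.ext (Subtype.ext (funext fun l => ?_))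
      (Subtype.ext (funext fun l => ?_)))) (Subtype.ext (funext fun l => ?_))
    · show coeff j (C (chr ch (0 : QZ)) * twS (om m) φ ch (x.1.1.1 l))
        = chr ch (j • om m) * φ (coeff j (x.1.1.1 l))
      rw [coeff_C_mul, coeff_twS, chr_zero, one_mul]
    · exact cut_tw φ ch (om m) _ _ j (x.1.1.1 l)
    · exact cut_tw φ ch (om m) _ _ j (x.1.1.1 l)
  · show MvPolynomial.aeval (fun l => coeff j (x.1.1.1 l))
      (MvPolynomial.C (P.p b) : MvPolynomial σ k) = algebraMap k S (P.p b)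
    rw [MvPolynomial.algHom_C]

theorem level_val {R : Type 1} [CommRing R] {L : Rˣ} (χ : SInv k (fun _ : σ => (0 : QZ)) L)
    (P : MPt f) (hd : 0 < P.ds a) (j : ℕ) (hj : 1 ≤ j) (h : j * P.ds a ≤ m) (V : Finset σ) :
    χ.χ ((EE f a c P.p m hm j).tor (cf f a c m hm P.p j) univ V)
      = (L : R) ^ (Fintype.card σ * (j * P.ds a - j)) * χ.χ ((lpP P a c j m hm h).K.app
        (polZ (affY k σ (j • om m)) MvPolynomial.X (X_hom (j • om m)) V)) := by
  classical
  have h0 : j * 1 ≤ j * P.ds a := Nat.mul_le_mul_left j hd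
  have hX : FT ((lpP P a c j m hm h).K.app
      (polZ (affY k σ (j • om m)) MvPolynomial.X (X_hom (j • om m)) V)).F :=
    (lpP P a c j m hm h).K.app_FT (FT.tor (FT.affY (j • om m)) _ _ _)
  have hD : (Dfr σ (m - j * P.ds a) (m - j)).Finite := Djm_finite _ _
  have hN : (Dfr σ (m - j * P.ds a) (m - j)).ncard = Fintype.card σ * (j * P.ds a - j) := by
    rw [Dfr_eq, Djm_ncard]
    congr 1
    omega
  rw [χ.iso (FT.tor (FT.EE f a c m hm P.p j) _ _ _) (level_iso f a c m hm P hd j hj h V),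
    times_ser χ hX hD, hN]

theorem steps_sum {R : Type 1} [CommRing R] {L : Rˣ} (χ : SInv k (fun _ : σ => (0 : QZ)) L)
    [DecidableEq σ] (p : σ → k) (r : ℕ) :
    χ.χ (EE f a c p m hm 1) = ∑ j ∈ Finset.Icc 1 r, ∑ V ∈ (univ : Finset (Finset σ)).erase ∅,
      χ.χ ((EE f a c p m hm j).tor (cf f a c m hm p j) univ V) + χ.χ (EE f a c p m hm (r + 1)) := by
  induction r with
  | zero => simp
  | succ r ih =>
    rw [ih, Finset.sum_Icc_succ_top (by omega), χ.torus (FT.EE f a c m hm p (r + 1))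
      (cf f a c m hm p (r + 1)) univ, Finset.powerset_univ,
      ← Finset.add_sum_erase univ _ (Finset.mem_univ (∅ : Finset σ)),
      χ.iso (FT.tor (FT.EE f a c m hm p (r + 1)) _ _ _) (zero_iso f a c m hm p (r + 1))]
    ring

end strata

theorem level : LevelStmt := by
  intro k _ σ ι _ _ _ R _ L χ f a ha c hc P hd m hm
  rw [χ.iso ((lp0 f a c m hm).K.app_FT FT.one) (app_iso f a c m hm P.p),
    steps_sum f a c m hm χ P.p m, last_empty, add_zero, Finset.mul_sum]
  refine Finset.sum_congr rfl fun j hj => ?_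
  have hj1 : 1 ≤ j := (Finset.mem_Icc.1 hj).1
  have h0 : j * 1 ≤ j * P.ds a := Nat.mul_le_mul_left j hd
  split_ifs with h
  · rw [Finset.sum_congr rfl fun V _ => level_val f a c m hm χ P hd j hj1 h V, ← Finset.mul_sum,
      ← mul_assoc, ← mul_assoc]
    congr 1
    have h1 : Fintype.card σ * m = Fintype.card σ * j + Fintype.card σ * (m - j * P.ds a)
        + Fintype.card σ * (j * P.ds a - j) := by
      rw [← mul_add, ← mul_add]
      congr 1
      omega
    rw [h1, pow_add, mul_assoc, Li_pow_mul, mul_one, pow_add]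
  · rw [Finset.sum_eq_zero fun V _ => high_empty f a c m hm χ P j (by omega) V, mul_zero]

end Pool.Agent.Helper32_OMP.H8
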